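import Pool.Agent.Helper82.UV.Core
import Pool.Agent.Helper69.UV.Defs
import Pool.Agent.Helper24.UG.Win
import Pool.Agent.Helper24.UG.Mass

/-!
# UV-Q1: few zeros in a window, and an ordinate not too far to its left
-/

set_option autoImplicit false
open MeasureTheory Set Filter Topology
open Pool.Agent.Helper57.Zeta Pool.Agent.Helper57.LH Pool.Agent.Helper57.ED Pool.Agent.Helper54.LG
open Pool.Agent.Helper93.UG (zc)
open Pool.Agent.Helper69.UG (NX)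
open Pool.Agent.Helper69.UV

namespace Pool.Agent.Helper82.UV

/-- R2 -/
def RrBd2 (δ : ℝ) : Prop := ∃ c0 T0 : ℝ, ∀ T, T0 ≤ T → ∀ c, Adm δ c0 T c → ∀ v : ℝ,
    v ^ 2 = (1 - 4 * δ) * c → ∀ n, |rr δ T c v n| ≤ T ^ (δ / 64) ∧ 1 ≤ VV δ T c v

/-- R8 -/
def Wmass (δ : ℝ) : Prop := ∃ c0 T0 : ℝ, ∀ T, T0 ≤ T → ∀ c, Adm δ c0 T c → ∀ v : ℝ,
    v ^ 2 = (1 - 4 * δ) * c → ∀ τ : ℝ,
    Integrable (wt δ T c v τ) ∧ |(∫ t, wt δ T c v τ t) - VV δ T c v| ≤ VV δ T c v / T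

/-- R10 -/
def EWS (δ : ℝ) : Prop := ∃ c0 T0 : ℝ, ∀ T, T0 ≤ T → ∀ c, Adm δ c0 T c → ∀ v : ℝ,
    v ^ 2 = (1 - 4 * δ) * c → ∀ τ : ℝ,
    (1 - 20 * δ) * c * VV δ T c v ≤ v * ∫ t, wt δ T c v τ t * WS δ T c t

/-- R11 -/
def VSSd (δ : ℝ) : Prop := ∃ C c0 T0 : ℝ, 0 < C ∧ ∀ T, T0 ≤ T → ∀ c, Adm δ c0 T c → ∀ v : ℝ,
    v ^ 2 = (1 - 4 * δ) * c → ∀ τ u e : ℝ,
    e = 1 ∨ e = 2 → ∫ t, wt δ T c v τ t * SS (XX δ T c / e) (t + u) ^ 2 ≤ C * c * VV δ T c v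

/-- K6 -/
def NxDevd (δ : ℝ) : Prop := ∃ C c0 T0 : ℝ, 0 < C ∧ ∀ T, T0 ≤ T → ∀ c, Adm δ c0 T c → ∀ v : ℝ,
    v ^ 2 = (1 - 4 * δ) * c →
    ∀ τ u e : ℝ, T ≤ τ → τ ≤ 2 * T → |u| ≤ √T → e = 1 ∨ e = 2 →
    Integrable (fun t => wt δ T c v τ t * |NX (XX δ T c / e) (t + u) - e * (δ ^ 2 * c) + SS (XX δ T c / e) (t + u)|) ∧
    ∫ t, wt δ T c v τ t * |NX (XX δ T c / e) (t + u) - e * (δ ^ 2 * c) + SS (XX δ T c / e) (t + u)| ≤
      C * VV δ T c v

/-- K8, any half length -/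
def Windowd : Prop := ∀ {X H : ℝ}, 0 < X → 0 < H → ∀ t : ℝ,
    Integrable (fun s => X / (2 * Real.pi) * qk 0 (X * s) * (zc (Ico (t + s - H) (t + s + H)) : ℝ)) ∧
    ∫ s, X / (2 * Real.pi) * qk 0 (X * s) * (zc (Ico (t + s - H) (t + s + H)) : ℝ) =
      X / (2 * Real.pi) * ∫ w in (-H)..H, NX X (t + w)

lemma wt_cont {δ T : ℝ} (hT : 0 < T) (c v τ : ℝ) : Continuous (wt δ T c v τ) := by
  have hW0 : 0 < WW δ T := by unfold WW; positivity
  have hpi := Real.pi_pos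
  unfold wt
  have h1 : Continuous fun t => PW (WW δ T) (t - τ) := by
    unfold PW
    apply Continuous.div continuous_const (by fun_prop)
    intro t
    positivity
  have h2 : Continuous (RR δ T c v) := by
    unfold RR
    refine continuous_finsetSum _ fun n hn => ?_
    have hn0 : (n : ℂ) ≠ 0 := by exact_mod_cast (Nat.pos_iff_ne_zero.mp (Finset.mem_Icc.1 hn).1)
    exact continuous_const.mul (Continuous.const_cpow (by fun_prop) (Or.inl hn0))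
  exact h1.mul (h2.norm.pow 2)

lemma wt_nonneg {δ T : ℝ} (hT : 0 < T) (c v τ t : ℝ) : 0 ≤ wt δ T c v τ t := by
  have hW0 : 0 < WW δ T := by unfold WW; positivity
  unfold wt
  exact mul_nonneg (PW_pos hW0 _).le (by positivity)

theorem few_of {δ : ℝ} (hδ : 0 < δ) (hδ1 : δ ≤ 1 / 32) (h2 : RrBd2 δ) (h8 : Wmass δ) (h10 : EWS δ) (h11 : VSSd δ)
    (h6 : NxDevd δ) (hw : Windowd) :
    ∃ c0 T0 : ℝ, ∀ T, T0 ≤ T → ∀ c, Adm δ c0 T c → ∀ v : ℝ,
    v ^ 2 = (1 - 4 * δ) * c → 0 < v →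
    ∀ τ, T ≤ τ → τ ≤ 2 * T → ∃ s : ℝ, |s| ≤ √T ∧
      Real.exp (-c) * VV δ T c v ≤ ∫ t in {t : ℝ | t + s ∈
        {t : ℝ | (zc (Ico (t - HH T c) (t + HH T c)) : ℝ) ≤ c - (1 - 21 * δ) * √c ∧
          ∃ ρ : ZS, t - HH T c - 16 / XX δ T c ≤ (ρ : ℂ).im ∧ (ρ : ℂ).im < t - HH T c}}, wt δ T c v τ t := by
  obtain ⟨c1, T1, h10⟩ := h10
  obtain ⟨Cs, c2, T2, hCs, h11⟩ := h11
  obtain ⟨Cn, c3, T3, hCn, h6⟩ := h6
  obtain ⟨c4, T4, h8⟩ := h8
  obtain ⟨c5, T5, h2⟩ := h2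
  have hl := Real.tendsto_log_atTop
  have hll : Tendsto (fun T : ℝ => Real.log (Real.log T)) atTop atTop := hl.comp hl
  obtain ⟨T6, hT6⟩ := eventually_atTop.mp ((hll.eventually_ge_atTop 1).and ((hl.eventually_ge_atTop 1).and
    (eventually_ge_atTop 16)))
  have hδ2 : 0 < δ ^ 2 := by positivity
  have hδ21 : δ ^ 2 ≤ 1 := by nlinarith
  -- the number to beat
  set M := 2 + (8 + 4 * (1 / δ ^ 2) * (146 * (Cs / δ ^ 2) + 12 * Cn)) / δ with hM
  have hM2 : 2 ≤ M := by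
    have : 0 ≤ (8 + 4 * (1 / δ ^ 2) * (146 * (Cs / δ ^ 2) + 12 * Cn)) / δ := by positivity
    linarith
  have hδM : 8 + 4 * (1 / δ ^ 2) * (146 * (Cs / δ ^ 2) + 12 * Cn) ≤ δ * M := by
    have : δ * M = 2 * δ + (8 + 4 * (1 / δ ^ 2) * (146 * (Cs / δ ^ 2) + 12 * Cn)) := by rw [hM]; field_simp
    linarith
  refine ⟨max (M ^ 2) (max c1 (max c2 (max c3 (max c4 c5)))), max T6 (max T1 (max T2 (max T3 (max T4 T5)))),
    fun T hT c hc v hv hv0 τ hτ1 hτ2 => ?_⟩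
  simp only [max_le_iff] at hT
  obtain ⟨hT6', hT1', hT2', hT3', hT4', hT5'⟩ := hT
  obtain ⟨hcM, hcc⟩ := hc
  simp only [max_le_iff] at hcM
  obtain ⟨hcM0, hc1, hc2, hc3, hc4, hc5⟩ := hcM
  obtain ⟨hLL, hL1, hT16⟩ := hT6 T hT6'
  have hc1' : 1 ≤ c := by
    have : 1 ≤ M ^ 2 := one_le_pow₀ (by linarith)
    linarith
  have hc0 : 0 < c := by linarith
  have hsc : M ≤ √c := Real.le_sqrt_of_sq_le hcM0
  have hscs : √c ^ 2 = c := Real.sq_sqrt hc0.le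
  have hT0 : 0 < T := by linarith
  have hpi := Real.pi_pos
  have hpi4 := Real.pi_lt_four
  have hcL0 : 64 * c ≤ δ ^ 2 * Real.log T := by
    have : c * 1 ≤ c * Real.log (Real.log T) := mul_le_mul_of_nonneg_left hLL hc0.le
    linarith
  have hcL : 16 * c ≤ Real.log T := by
    have : δ ^ 2 * Real.log T ≤ 1 * Real.log T := mul_le_mul_of_nonneg_right hδ21 (by linarith)
    linarith
  have hX16 : 16 ≤ XX δ T c := by
    unfold XX
    rw [le_div_iff₀ (by positivity)]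
    have : δ ^ 2 * c ≤ 1 * c := mul_le_mul_of_nonneg_right hδ21 hc0.le
    linarith
  have hH0 : 0 < HH T c := by unfold HH; positivity
  have hH1 : HH T c ≤ 1 := by
    unfold HH
    rw [div_le_one (by linarith)]
    nlinarith
  have hq : XX δ T c * HH T c / Real.pi = 1 / δ ^ 2 := by
    unfold XX HH
    field_simp
  have hsT : 4 ≤ √T := Real.le_sqrt_of_sq_le (by linarith)
  have hV1 := (h2 T hT5' c ⟨hc5, hcc⟩ v hv 0).2
  obtain ⟨hwi, hm⟩ := h8 T hT4' c ⟨hc4, hcc⟩ v hv τ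
  have hvle : v ≤ √c := by
    apply Real.le_sqrt_of_sq_le
    rw [hv]
    nlinarith
  have hmain := few_core (X := XX δ T c) (h := HH T c) (T := T) (c := c) (b := δ ^ 2 * c) (θ := 1 - 20 * δ)
    (θ' := 1 - 21 * δ) (Cs := Cs / δ ^ 2) (K := Cn) (V := VV δ T c v) hX16 hH0 (by positivity)
    (by rw [hq]; field_simp) (by
      have : 8 / XX δ T c ≤ 1 := by
        rw [div_le_one (by linarith)]
        linarith
      linarith) hT16 hc1' hcL (wt_cont hT0 c v τ) hwi (wt_nonneg hT0 c v τ) hV1 hm (by positivity) hCn.le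
    (fun u hu => by
      have := h6 T hT3' c ⟨hc3, hcc⟩ v hv τ u 1 hτ1 hτ2 hu (Or.inl rfl)
      simpa only [div_one, one_mul] using this)
    (fun u hu => h6 T hT3' c ⟨hc3, hcc⟩ v hv τ u 2 hτ1 hτ2 hu (Or.inr rfl))
    (fun u => by
      have := h11 T hT2' c ⟨hc2, hcc⟩ v hv τ u 1 (Or.inl rfl)
      rw [div_one] at this
      refine this.trans (le_of_eq ?_)
      field_simp)
    (fun u => by
      have := h11 T hT2' c ⟨hc2, hcc⟩ v hv τ u 2 (Or.inr rfl)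
      refine this.trans (le_of_eq ?_)
      field_simp)
    (by
      have h3 := h10 T hT1' c ⟨hc1, hcc⟩ v hv τ
      unfold WS at h3
      set Sb := ∫ t, wt δ T c v τ t * (XX δ T c / (2 * Real.pi) * ∫ w in (-(HH T c))..(HH T c), SS (XX δ T c) (t + w)) with hSb
      have hpos : 0 ≤ (1 - 20 * δ) * c * VV δ T c v := by
        have : 0 ≤ 1 - 20 * δ := by linarith
        have hV0 : 0 ≤ VV δ T c v := by linarith
        positivity
      have hSb0 : 0 ≤ Sb := by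
        by_contra hcon
        push Not at hcon
        have := mul_neg_of_pos_of_neg hv0 hcon
        linarith
      have hsc0 : 0 < √c := by linarith
      have h4 : v * Sb ≤ √c * Sb := mul_le_mul_of_nonneg_right hvle hSb0
      have h5 : √c * ((1 - 20 * δ) * √c * VV δ T c v) ≤ √c * Sb := by
        calc √c * ((1 - 20 * δ) * √c * VV δ T c v) = (1 - 20 * δ) * √c ^ 2 * VV δ T c v := by ring
          _ = (1 - 20 * δ) * c * VV δ T c v := by rw [hscs]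
          _ ≤ v * Sb := h3
          _ ≤ _ := h4
      exact le_of_mul_le_mul_left h5 hsc0)
    (fun t => hw (by linarith) hH0 t) (Helper24.UG.zc_meas _) (fun {_} hX => Helper24.UG.qk_mass hX)
    (by rw [abs_lt]; constructor <;> linarith) (by rw [abs_lt]; constructor <;> linarith)
    (by
      rw [hq]
      have h3 : (1 - 20 * δ - (1 - 21 * δ)) * √c = δ * √c := by ring
      rw [h3]
      exact hδM.trans (mul_le_mul_of_nonneg_left hsc hδ.le))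
  obtain ⟨s, hs1, hs2⟩ := hmain
  refine ⟨s, hs1, le_trans ?_ hs2⟩
  rw [le_div_iff₀ hc0]
  have h4 : Real.exp (-c) * c ≤ 1 := by
    rw [Real.exp_neg, inv_mul_le_iff₀ (Real.exp_pos _), mul_one]
    have := Real.add_one_le_exp c
    linarith
  calc Real.exp (-c) * VV δ T c v * c = (Real.exp (-c) * c) * VV δ T c v := by ring
    _ ≤ 1 * VV δ T c v := mul_le_mul_of_nonneg_right h4 (by linarith)
    _ = _ := one_mul _

end Pool.Agent.Helper82.UV
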