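import Pool.Agent.Helper57.ED.Def

/-!
# UV-M5: the error factor
-/

set_option autoImplicit false
open MeasureTheory Set Filter Topology

namespace Pool.Agent.Helper82.UV

/-- The error factor. `R` stands for the length of the resonator, `W` for the width. -/
lemma err_bd {i : ℝ} (hi0 : 0 < i) (hi32 : i ≤ 1 / 32) : ∃ T1 : ℝ, 10 ≤ T1 ∧ ∀ T : ℝ, T1 ≤ T → ∀ σ τ : ℝ, |τ| ≤ 4 * T →
    1 / 2 + 1 / Real.log T ≤ σ → σ ≤ 3 / 4 → ∀ R : ℕ, (R : ℝ) ≤ T ^ (1 / 2 - i) →
    1 ≤ T ^ (1 - i / 4096) - σ ∧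
    (2 * T ^ (1 / 2 - 47 * i / 64)) ^ 2 * (15 * (1 + |τ| / (T ^ (1 - i / 4096) - σ)) /
      ((T ^ (1 - i / 4096) - σ) * (2 * σ - 1)) + 4 / (T ^ (1 - i / 4096) - σ) +
      (2 * R + 2 * (3 + |τ| / (T ^ (1 - i / 4096) - σ))) * Real.exp (-((T ^ (1 - i / 4096) - σ) / (R + 1)))) ≤
      T ^ (-i) := by
  have hi8 : i ≤ 1 / 8 := by linarith
  set K : ℝ := 1080 / i + 8 + 147456 with hK
  have hK0 : 0 < K := by positivity
  have ht : Tendsto (fun T : ℝ => 4 * K * T ^ (-(7 / 32 * i))) atTop (𝓝 0) := by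
    have := (tendsto_rpow_neg_atTop (y := 7 / 32 * i) (by positivity)).const_mul (4 * K)
    rwa [mul_zero] at this
  obtain ⟨T1, hT1⟩ := (eventually_atTop.1 (ht.eventually_le_const (zero_lt_one)))
  refine ⟨max T1 10, le_max_right _ _, fun T hT σ τ hτ hσ hσ1 R hR => ?_⟩
  have hT10 : 10 ≤ T := (le_max_right _ _).trans hT
  have hTT1 : T1 ≤ T := (le_max_left _ _).trans hT
  have hT0 : 0 < T := by linarith
  have hT1' : 1 ≤ T := by linarith
  have hL : 0 < Real.log T := Real.log_pos (by linarith)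
  set W := T ^ (1 - i / 4096) with hWd
  have hW4 : 4 ≤ W := by
    have h1 : W ≥ (10:ℝ) ^ (1 - i / 4096) := Real.rpow_le_rpow (by norm_num) hT10 (by linarith)
    have h2 : (10:ℝ) ^ (1 - i / 4096) ≥ 10 ^ (3 / 4 : ℝ) :=
      Real.rpow_le_rpow_of_exponent_le (by norm_num) (by linarith)
    have h3 : (4:ℝ) ≤ 10 ^ (3 / 4 : ℝ) := by
      have h4 : ((10:ℝ) ^ (3 / 4 : ℝ)) ^ 4 = 1000 := by
        rw [← Real.rpow_natCast, ← Real.rpow_mul (by norm_num)]
        norm_num
      by_contra hcon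
      have h5 : ((10:ℝ) ^ (3 / 4 : ℝ)) ^ 4 < 4 ^ 4 := pow_lt_pow_left₀ (not_le.1 hcon) (by positivity) (by norm_num)
      rw [h4] at h5
      norm_num at h5
    linarith
  set l := W - σ with hl
  have hlW : W / 2 ≤ l := by linarith
  have hl1 : 1 ≤ l := by linarith
  have hl0 : 0 < l := by linarith
  refine ⟨hl1, ?_⟩
  have hWpos : 0 < W := by linarith
  have hτl : |τ| / l ≤ 8 * T ^ (i / 4096) := by
    rw [div_le_iff₀ hl0]
    have h1 : T ^ (i / 4096) * W = T := by
      rw [hWd, ← Real.rpow_add hT0, add_sub_cancel, Real.rpow_one]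
    have h2 : 0 ≤ T ^ (i / 4096) := by positivity
    calc |τ| ≤ 4 * T := hτ
      _ = 8 * T ^ (i / 4096) * (W / 2) := by
          calc 4 * T = 4 * (T ^ (i / 4096) * W) := by rw [h1]
            _ = _ := by ring
      _ ≤ _ := mul_le_mul_of_nonneg_left hlW (by positivity)
  have hp1 : 1 ≤ T ^ (i / 4096) := Real.one_le_rpow hT1' (by positivity)
  have h2σ : 2 / Real.log T ≤ 2 * σ - 1 := by
    have : 2 / Real.log T = 2 * (1 / Real.log T) := by ring
    rw [this]
    linarith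
  have h2σ0 : 0 < 2 * σ - 1 := lt_of_lt_of_le (by positivity) h2σ
  have hlog : Real.log T ≤ 8 / i * T ^ (1 / 8 * i) := by
    have := Real.log_le_rpow_div hT0.le (show (0:ℝ) < 1 / 8 * i by positivity)
    calc Real.log T ≤ T ^ (1 / 8 * i) / (1 / 8 * i) := this
      _ = _ := by field_simp
  -- term 1
  have t1 : 15 * (1 + |τ| / l) / (l * (2 * σ - 1)) ≤ 1080 / i * T ^ (-1 + 1 / 4 * i) := by
    have h1 : W / Real.log T ≤ l * (2 * σ - 1) := by
      calc W / Real.log T = W / 2 * (2 / Real.log T) := by ring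
        _ ≤ _ := mul_le_mul hlW h2σ (by positivity) hl0.le
    calc 15 * (1 + |τ| / l) / (l * (2 * σ - 1)) ≤ 15 * (1 + |τ| / l) / (W / Real.log T) :=
          div_le_div_of_nonneg_left (by positivity) (by positivity) h1
      _ ≤ 15 * (9 * T ^ (i / 4096)) / (W / Real.log T) := by
          refine div_le_div_of_nonneg_right ?_ (by positivity)
          linarith
      _ = 135 * Real.log T * (T ^ (i / 4096) / W) := by
          field_simp
          ring
      _ ≤ 135 * (8 / i * T ^ (1 / 8 * i)) * (T ^ (i / 4096) / W) := by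
          refine mul_le_mul_of_nonneg_right ?_ (by positivity)
          linarith
      _ = 1080 / i * T ^ (1 / 8 * i + i / 4096 - (1 - i / 4096)) := by
          rw [Real.rpow_sub hT0, Real.rpow_add hT0, ← hWd]
          ring
      _ ≤ 1080 / i * T ^ (-1 + 1 / 4 * i) := by
          refine mul_le_mul_of_nonneg_left ?_ (by positivity)
          exact Real.rpow_le_rpow_of_exponent_le hT1' (by linarith)
  have t2 : 4 / l ≤ 8 * T ^ (-1 + 1 / 4 * i) := by
    calc 4 / l ≤ 4 / (W / 2) := div_le_div_of_nonneg_left (by norm_num) (by positivity) hlW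
      _ = 8 * T ^ (-(1 - i / 4096)) := by
          rw [Real.rpow_neg hT0.le, ← hWd]
          field_simp
          norm_num
      _ ≤ _ := by
          refine mul_le_mul_of_nonneg_left ?_ (by norm_num)
          exact Real.rpow_le_rpow_of_exponent_le hT1' (by linarith)
  have hT8 : 1 ≤ T ^ (1 / 2 - i) := Real.one_le_rpow hT1' (by linarith)
  have t3 : (2 * R + 2 * (3 + |τ| / l)) * Real.exp (-(l / (R + 1))) ≤ 147456 * T ^ (-1 + 1 / 4 * i) := by
    have h1 : T ^ (1 / 2 : ℝ) / 4 ≤ l / (R + 1) := by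
      rw [le_div_iff₀ (by positivity)]
      calc T ^ (1 / 2 : ℝ) / 4 * ((R : ℝ) + 1) ≤ T ^ (1 / 2 : ℝ) / 4 * (2 * T ^ (1 / 2 - i)) := by
            refine mul_le_mul_of_nonneg_left ?_ (by positivity)
            linarith
        _ = T ^ (1 / 2 + (1 / 2 - i)) / 2 := by
            rw [Real.rpow_add hT0]
            ring
        _ ≤ W / 2 := by
            rw [hWd]
            refine div_le_div_of_nonneg_right ?_ (by norm_num)
            exact Real.rpow_le_rpow_of_exponent_le hT1' (by linarith)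
        _ ≤ l := hlW
    have h2 : Real.exp (-(l / (R + 1))) ≤ 6144 * T ^ (-2 : ℝ) := by
      have hx : 0 < T ^ (1 / 2 : ℝ) / 4 := by positivity
      have h3 : (T ^ (1 / 2 : ℝ) / 4) ^ 4 / 24 ≤ Real.exp (T ^ (1 / 2 : ℝ) / 4) := by
        have := Real.pow_div_factorial_le_exp (T ^ (1 / 2 : ℝ) / 4) hx.le 4
        simpa [Nat.factorial] using this
      have h4 : (T ^ (1 / 2 : ℝ) / 4) ^ 4 = T ^ (2:ℝ) / 256 := by
        rw [div_pow, ← Real.rpow_natCast, ← Real.rpow_mul hT0.le]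
        norm_num
      rw [h4] at h3
      calc Real.exp (-(l / (R + 1))) ≤ Real.exp (-(T ^ (1 / 2 : ℝ) / 4)) := Real.exp_le_exp.2 (by linarith)
        _ = (Real.exp (T ^ (1 / 2 : ℝ) / 4))⁻¹ := Real.exp_neg _
        _ ≤ (T ^ (2:ℝ) / 256 / 24)⁻¹ := inv_anti₀ (by positivity) h3
        _ = 6144 * T ^ (-2 : ℝ) := by
            rw [Real.rpow_neg hT0.le]
            field_simp
            norm_num
    have h5 : T ^ (i / 4096) ≤ T ^ (1 / 2 : ℝ) := Real.rpow_le_rpow_of_exponent_le hT1' (by linarith)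
    have h6 : T ^ (1 / 2 - i) ≤ T ^ (1 / 2 : ℝ) := Real.rpow_le_rpow_of_exponent_le hT1' (by linarith)
    have h7 : 1 ≤ T ^ (1 / 2 : ℝ) := Real.one_le_rpow hT1' (by norm_num)
    calc (2 * R + 2 * (3 + |τ| / l)) * Real.exp (-(l / (R + 1))) ≤ (24 * T ^ (1 / 2 : ℝ)) * (6144 * T ^ (-2 : ℝ)) := by
          refine mul_le_mul ?_ h2 (Real.exp_pos _).le (by positivity)
          linarith
      _ = 147456 * T ^ (1 / 2 + -2 : ℝ) := by
          rw [Real.rpow_add hT0]
          ring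
      _ ≤ 147456 * T ^ (-1 + 1 / 4 * i) := by
          refine mul_le_mul_of_nonneg_left ?_ (by norm_num)
          exact Real.rpow_le_rpow_of_exponent_le hT1' (by linarith)
  have hfin := hT1 T hTT1
  calc _ ≤ (2 * T ^ (1 / 2 - 47 * i / 64)) ^ 2 * (K * T ^ (-1 + 1 / 4 * i)) := by
        refine mul_le_mul_of_nonneg_left ?_ (by positivity)
        have : K * T ^ (-1 + 1 / 4 * i) = 1080 / i * T ^ (-1 + 1 / 4 * i) + 8 * T ^ (-1 + 1 / 4 * i) +
          147456 * T ^ (-1 + 1 / 4 * i) := by rw [hK]; ring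
        linarith
    _ = 4 * K * (T ^ (1 / 2 - 47 * i / 64) * T ^ (1 / 2 - 47 * i / 64) * T ^ (-1 + 1 / 4 * i)) := by ring
    _ = 4 * K * T ^ (1 / 2 - 47 * i / 64 + (1 / 2 - 47 * i / 64) + (-1 + 1 / 4 * i)) := by
        rw [← Real.rpow_add hT0, ← Real.rpow_add hT0]
    _ = 4 * K * T ^ (-(7 / 32 * i) + -i) := by
        congr 2
        ring
    _ = 4 * K * T ^ (-(7 / 32 * i)) * T ^ (-i) := by
        rw [Real.rpow_add hT0]
        ring
    _ ≤ 1 * T ^ (-i) := mul_le_mul_of_nonneg_right hfin (by positivity)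
    _ = _ := one_mul _

end Pool.Agent.Helper82.UV
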