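import Pool.Agent.Helper69.UV.Defs
import Pool.Agent.Helper82.UG.Cv
import Pool.Agent.Helper82.UV.Err

/-!
# UV-M5: the weighted second moment of `F - 1`
-/

set_option autoImplicit false
open MeasureTheory Set Filter Topology
open Pool.Agent.Helper57.Zeta Pool.Agent.Helper57.LH Pool.Agent.Helper57.ED Pool.Agent.Helper54.LG
open Pool.Agent.Helper69.UV Pool.Agent.Helper82.RG
open Pool.Agent.Helper82.UG (cv sum_cv Mo_mul sum_abs_cv tsum_conv)

namespace Pool.Agent.Helper82.UV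

lemma ma_le {δ T c : ℝ} (d : ℕ) : |ma δ T c d| ≤ 1 := by
  unfold ma
  split_ifs
  · rw [abs_mul]
    have h1 : |(ArithmeticFunction.moebius d : ℝ)| ≤ 1 := by
      exact_mod_cast ArithmeticFunction.abs_moebius_le_one (n := d)
    have h2 : |max 0 (min 1 (2 - 32 * Real.log d / (δ * Real.log T)))| ≤ 1 := by
      rw [abs_of_nonneg (le_max_left _ _)]
      exact max_le zero_le_one (min_le_left _ _)
    exact mul_le_one₀ h1 (abs_nonneg _) h2
  · simp

lemma mb_le {δ T c : ℝ} (d : ℕ) : |mb δ T c d| ≤ 1 := by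
  unfold mb
  split_ifs
  · exact_mod_cast ArithmeticFunction.abs_moebius_le_one (n := d)
  · simp

lemma ma_supp {δ T c : ℝ} (hδ : 0 < δ) (hT : 1 < T) {d : ℕ} (h : ma δ T c d ≠ 0) : (d : ℝ) ≤ T ^ (δ / 16) := by
  have hL : 0 < Real.log T := Real.log_pos hT
  rcases Nat.eq_zero_or_pos d with h0 | h0
  · subst h0
    simp
    positivity
  · have hd : (0:ℝ) < d := by exact_mod_cast h0
    unfold ma at h
    split_ifs at h with h1
    · have h2 := right_ne_zero_of_mul h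
      have h3 : 0 < min 1 (2 - 32 * Real.log d / (δ * Real.log T)) := by
        by_contra hcon
        exact h2 (max_eq_left (not_lt.1 hcon))
      have h4 := (lt_min_iff.1 h3).2
      have h5 : Real.log d ≤ δ / 16 * Real.log T := by
        have h6 : 32 * Real.log d / (δ * Real.log T) < 2 := by linarith
        rw [div_lt_iff₀ (by positivity)] at h6
        linarith
      calc (d:ℝ) = Real.exp (Real.log d) := (Real.exp_log hd).symm
        _ ≤ Real.exp (δ / 16 * Real.log T) := Real.exp_le_exp.2 h5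
        _ = T ^ (δ / 16) := by rw [Real.rpow_def_of_pos (by linarith), mul_comm]
    · exact absurd rfl h

lemma mb_supp {δ T c : ℝ} {d : ℕ} (h : mb δ T c d ≠ 0) : (d : ℝ) ≤ T ^ (δ / 32) := by
  unfold mb at h
  split_ifs at h with h1
  · exact h1.2
  · exact absurd rfl h

lemma mm_supp {δ T c : ℝ} (hδ : 0 < δ) (hT : 1 < T) (n : ℕ) (hn : NM δ T < n) : mm δ T c n = 0 := by
  unfold mm
  refine Finset.sum_eq_zero fun x hx => ?_
  by_contra hcon
  have h1 := ma_supp hδ hT (left_ne_zero_of_mul hcon)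
  have h2 := mb_supp (right_ne_zero_of_mul hcon)
  rw [Nat.mem_divisorsAntidiagonal] at hx
  have h3 : (n : ℝ) ≤ T ^ (3 * δ / 32) := by
    rw [← hx.1]
    push_cast
    calc (x.1 : ℝ) * x.2 ≤ T ^ (δ / 16) * T ^ (δ / 32) :=
          mul_le_mul h1 h2 (by positivity) (by positivity)
      _ = T ^ (3 * δ / 32) := by
          rw [← Real.rpow_add (by linarith)]
          congr 1
          ring
  have h4 : n ≤ NM δ T := Nat.le_floor h3
  omega

lemma mm_zero {δ T c : ℝ} : mm δ T c 0 = 0 := by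
  unfold mm
  simp

lemma mm_le {δ T c : ℝ} (n : ℕ) : |mm δ T c n| ≤ n := by
  unfold mm
  refine (Finset.abs_sum_le_sum_abs _ _).trans ?_
  calc ∑ x ∈ n.divisorsAntidiagonal, |ma δ T c x.1 * mb δ T c x.2| ≤ ∑ x ∈ n.divisorsAntidiagonal, (1:ℝ) := by
        refine Finset.sum_le_sum fun x _ => ?_
        rw [abs_mul]
        exact mul_le_one₀ (ma_le _) (abs_nonneg _) (mb_le _)
    _ = ((n.divisors.card : ℕ) : ℝ) := by
        rw [Nat.sum_divisorsAntidiagonal (fun _ _ => (1:ℝ))]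
        simp
    _ ≤ n := by exact_mod_cast Nat.card_divisors_le_self n

lemma sum_mm {δ T c : ℝ} (hδ : 0 < δ) (hT : 1 < T) : ∑ d ∈ Finset.Icc 1 (NM δ T), |mm δ T c d| ≤ T ^ (3 * δ / 16) := by
  have h0 : (NM δ T : ℝ) ≤ T ^ (3 * δ / 32) := Nat.floor_le (by positivity)
  calc ∑ d ∈ Finset.Icc 1 (NM δ T), |mm δ T c d| ≤ ∑ d ∈ Finset.Icc 1 (NM δ T), (NM δ T : ℝ) := by
        refine Finset.sum_le_sum fun d hd => (mm_le d).trans ?_
        exact_mod_cast (Finset.mem_Icc.1 hd).2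
    _ = (NM δ T : ℝ) * NM δ T := by
        rw [Finset.sum_const, nsmul_eq_mul, Nat.card_Icc]
        simp
    _ ≤ T ^ (3 * δ / 32) * T ^ (3 * δ / 32) := mul_le_mul h0 h0 (by positivity) (by positivity)
    _ = T ^ (3 * δ / 16) := by
        rw [← Real.rpow_add (by linarith)]
        congr 1
        ring

/-- twisted coefficients (`w` is `cos` or `sin`) -/
noncomputable def qq (δ T c v σ u : ℝ) (w : ℝ → ℝ) (n : ℕ) : ℝ := rr δ T c v n * (n : ℝ) ^ (σ - 1 / 2) * w (u * Real.log n)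

lemma qq_le {δ T c v σ u : ℝ} {w : ℝ → ℝ} (hw : ∀ x, |w x| ≤ 1) (n : ℕ) :
    |qq δ T c v σ u w n| ≤ |rr δ T c v n| * (n : ℝ) ^ (σ - 1 / 2) := by
  unfold qq
  have h : 0 ≤ (n : ℝ) ^ (σ - 1 / 2) := Real.rpow_nonneg (Nat.cast_nonneg _) _
  rw [abs_mul, abs_mul, abs_of_nonneg h]
  exact mul_le_of_le_one_right (by positivity) (hw _)

lemma RR_shift {δ T c v σ u : ℝ} (s : ℝ) :
    RR δ T c v (s - u) = Mo (NR δ T) (qq δ T c v σ u Real.cos) (σ + s * Complex.I) +
      Complex.I * Mo (NR δ T) (qq δ T c v σ u Real.sin) (σ + s * Complex.I) := by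
  unfold RR Mo
  rw [Finset.mul_sum, ← Finset.sum_add_distrib]
  refine Finset.sum_congr rfl fun n hn => ?_
  have hn0 : 0 < n := (Finset.mem_Icc.1 hn).1
  have hnR : (0:ℝ) < n := by exact_mod_cast hn0
  have hnC : (n : ℂ) ≠ 0 := by exact_mod_cast hnR.ne'
  have e1 : (n : ℂ) ^ (-((1 / 2 : ℂ) + ((s - u : ℝ) : ℂ) * Complex.I)) =
      (n : ℂ) ^ (-(σ + s * Complex.I)) * (((n : ℝ) ^ (σ - 1 / 2) : ℝ) : ℂ) *
        Complex.exp ((u * Real.log n : ℝ) * Complex.I) := by
    have e2 : (((n : ℝ) ^ (σ - 1 / 2) : ℝ) : ℂ) = (n : ℂ) ^ ((σ - 1 / 2 : ℝ) : ℂ) := by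
      rw [Complex.ofReal_cpow hnR.le]
      simp
    have e3 : Complex.exp ((u * Real.log n : ℝ) * Complex.I) = (n : ℂ) ^ (u * Complex.I) := by
      rw [Complex.cpow_def_of_ne_zero hnC, ← Complex.natCast_log]
      congr 1
      push_cast
      ring
    rw [e2, e3, ← Complex.cpow_add _ _ hnC, ← Complex.cpow_add _ _ hnC]
    congr 1
    push_cast
    ring
  rw [e1, Complex.exp_mul_I, ← Complex.ofReal_cos, ← Complex.ofReal_sin]
  unfold qq
  push_cast
  ring

lemma fin_bd {δ T c v σ u : ℝ} {w : ℝ → ℝ} (hδ : 0 < δ) (hδ1 : δ ≤ 1 / 32) (hw : ∀ x, |w x| ≤ 1) (hT : 1 < T) (hσ1 : σ ≤ 1 / 2 + δ / 8)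
    (hr : ∀ n, |rr δ T c v n| ≤ T ^ (δ / 64)) :
    ∑ n ∈ Finset.Icc 1 (NR δ T), |qq δ T c v σ u w n| ≤ T ^ (1 / 2 - 59 * δ / 64) := by
  have hT0 : 0 < T := by linarith
  have h0 : (NR δ T : ℝ) ≤ T ^ (1 / 2 - δ) := Nat.floor_le (by positivity)
  have hT1 : 1 ≤ T ^ (1 / 2 - δ) := Real.one_le_rpow hT.le (by linarith)
  calc ∑ n ∈ Finset.Icc 1 (NR δ T), |qq δ T c v σ u w n| ≤
      ∑ n ∈ Finset.Icc 1 (NR δ T), T ^ (δ / 64) * T ^ (δ / 16) := by
        refine Finset.sum_le_sum fun n hn => (qq_le hw n).trans ?_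
        have hn1 := (Finset.mem_Icc.1 hn).1
        have hn2 := (Finset.mem_Icc.1 hn).2
        have hnR : (1:ℝ) ≤ n := by exact_mod_cast hn1
        refine mul_le_mul (hr n) ?_ (Real.rpow_nonneg (by linarith) _) (by positivity)
        calc (n : ℝ) ^ (σ - 1 / 2) ≤ (n : ℝ) ^ (δ / 8) :=
              Real.rpow_le_rpow_of_exponent_le hnR (by linarith)
          _ ≤ (T ^ (1 / 2 - δ)) ^ (δ / 8) := by
              refine Real.rpow_le_rpow (by linarith) (le_trans ?_ h0) (by positivity)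
              exact_mod_cast hn2
          _ = T ^ ((1 / 2 - δ) * (δ / 8)) := by
              rw [← Real.rpow_mul hT0.le]
          _ ≤ T ^ (δ / 16) := by
              refine Real.rpow_le_rpow_of_exponent_le hT.le ?_
              have h1 : 0 ≤ δ * (δ / 8) := by positivity
              have h2 : (1 / 2 - δ) * (δ / 8) = δ / 16 - δ * (δ / 8) := by ring
              linarith
    _ = (NR δ T : ℝ) * (T ^ (δ / 64) * T ^ (δ / 16)) := by
        rw [Finset.sum_const, nsmul_eq_mul, Nat.card_Icc]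
        simp
    _ ≤ T ^ (1 / 2 - δ) * (T ^ (δ / 64) * T ^ (δ / 16)) := mul_le_mul_of_nonneg_right h0 (by positivity)
    _ = T ^ (1 / 2 - 59 * δ / 64) := by
        rw [← Real.rpow_add hT0, ← Real.rpow_add hT0]
        congr 1
        ring

end Pool.Agent.Helper82.UV
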