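import Pool.Agent.Helper82.UG.Fm2
import Pool.Agent.Helper82.UV.Fm

/-!
# UV-M5: the weighted second moment of `F - 1`, conclusion
-/

set_option autoImplicit false
open MeasureTheory Set Filter Topology
open Pool.Agent.Helper57.Zeta Pool.Agent.Helper57.LH Pool.Agent.Helper57.ED Pool.Agent.Helper54.LG
open Pool.Agent.Helper69.UV Pool.Agent.Helper82.RG
open Pool.Agent.Helper69.UG (pt)
open Pool.Agent.Helper82.UG (cv sum_cv Mo_mul sum_abs_cv tsum_conv Mo_cont ze_cont)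

namespace Pool.Agent.Helper82.UV

/-- R1 as a statement -/
def RrSupp (δ : ℝ) : Prop := ∀ {T c v : ℝ} {n : ℕ} (_ : rr δ T c v n ≠ 0), 1 ≤ n ∧ n ≤ NR δ T ∧ Squarefree n

/-- R2 as a statement -/
def RrBd (δ : ℝ) : Prop := ∃ c0 T0 : ℝ, ∀ T, T0 ≤ T → ∀ c, Adm δ c0 T c → ∀ v : ℝ, v ^ 2 = (1 - 4 * δ) * c → ∀ n,
    |rr δ T c v n| ≤ T ^ (δ / 64) ∧ 1 ≤ VV δ T c v

/-- M4 as a statement -/
def Arith (δ : ℝ) : Prop := ∃ C c0 T0 : ℝ, 0 < C ∧ ∀ T, T0 ≤ T → ∀ c, Adm δ c0 T c → ∀ v : ℝ, v ^ 2 = (1 - 4 * δ) * c →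
    ∀ σ, 1 / 2 + 1 / Real.log T ≤ σ → σ ≤ 3 / 4 → ∀ q : ℕ → ℝ, (∀ n, |q n| ≤ |rr δ T c v n| * (n : ℝ) ^ (σ - 1 / 2)) →
    Summable (fun j : ℕ => ((∑ h ∈ j.divisors, gg δ T c h * q (j / h)) - q j) ^ 2 * (j : ℝ) ^ (-2 * σ)) ∧
    ∑' j : ℕ, ((∑ h ∈ j.divisors, gg δ T c h * q (j / h)) - q j) ^ 2 * (j : ℝ) ^ (-2 * σ) ≤
      C * T ^ (-(σ - 1 / 2 - 1 / Real.log T) * δ / 16) * Real.exp (C * √c) * VV δ T c v

lemma pt_eq {T y t : ℝ} : pt T y t = ((1 / 2 + y / Real.log T : ℝ) : ℂ) + (t : ℂ) * Complex.I := rfl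

lemma RR_cont (δ T c v : ℝ) : Continuous (RR δ T c v) := by
  unfold RR
  refine continuous_finsetSum _ fun n hn => ?_
  have hn0 : (n : ℂ) ≠ 0 := by exact_mod_cast (Nat.pos_iff_ne_zero.mp (Finset.mem_Icc.1 hn).1)
  exact continuous_const.mul (Continuous.const_cpow (by fun_prop) (Or.inl hn0))

lemma FF_cont {δ T c σ : ℝ} (hσ1 : σ < 1) : Continuous (fun s : ℝ => FF δ T c (σ + s * Complex.I)) := by
  unfold FF
  exact (ze_cont hσ1).mul ((Mo_cont _ _).comp (by fun_prop))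

/-- pointwise split into the cosine and sine parts -/
lemma point {δ T c v σ u : ℝ} (hδ : 0 < δ) (hT : 1 < T) (hr : ∀ n, NR δ T < n → rr δ T c v n = 0) (s : ℝ) :
    ‖RR δ T c v (s - u)‖ ^ 2 * ‖FF δ T c (σ + s * Complex.I) - 1‖ ^ 2 ≤
      2 * ‖riemannZeta (σ + s * Complex.I) * Mo (NM δ T * NR δ T) (cv (mm δ T c) (qq δ T c v σ u Real.cos)) (σ + s * Complex.I) -
        Mo (NR δ T) (qq δ T c v σ u Real.cos) (σ + s * Complex.I)‖ ^ 2 +
      2 * ‖riemannZeta (σ + s * Complex.I) * Mo (NM δ T * NR δ T) (cv (mm δ T c) (qq δ T c v σ u Real.sin)) (σ + s * Complex.I) -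
        Mo (NR δ T) (qq δ T c v σ u Real.sin) (σ + s * Complex.I)‖ ^ 2 := by
  have hq : ∀ w : ℝ → ℝ, ∀ n, NR δ T < n → qq δ T c v σ u w n = 0 := fun w n hn => by
    unfold qq
    rw [hr n hn]
    ring
  rw [← Mo_mul (mm_supp hδ hT) (hq _), ← Mo_mul (mm_supp hδ hT) (hq _), RR_shift (σ := σ) s]
  unfold FF
  set z := riemannZeta (σ + s * Complex.I)
  set M := Mo (NM δ T) (mm δ T c) (σ + s * Complex.I)
  set a := Mo (NR δ T) (qq δ T c v σ u Real.cos) (σ + s * Complex.I)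
  set b := Mo (NR δ T) (qq δ T c v σ u Real.sin) (σ + s * Complex.I)
  have e1 : z * (M * a) - a = a * (z * M - 1) := by ring
  have e2 : z * (M * b) - b = b * (z * M - 1) := by ring
  rw [e1, e2, norm_mul, norm_mul, mul_pow, mul_pow]
  have h1 : ‖a + Complex.I * b‖ ^ 2 ≤ 2 * ‖a‖ ^ 2 + 2 * ‖b‖ ^ 2 := by
    have h2 : ‖a + Complex.I * b‖ ≤ ‖a‖ + ‖b‖ := by
      refine (norm_add_le _ _).trans (le_of_eq ?_)
      rw [norm_mul, Complex.norm_I, one_mul]
    have h3 : ‖a + Complex.I * b‖ ^ 2 ≤ (‖a‖ + ‖b‖) ^ 2 := pow_le_pow_left₀ (norm_nonneg _) h2 2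
    nlinarith [sq_nonneg (‖a‖ - ‖b‖)]
  nlinarith [sq_nonneg ‖z * M - 1‖, mul_le_mul_of_nonneg_right h1 (sq_nonneg ‖z * M - 1‖)]

/-- one part -/
lemma part {δ T c v σ u τ : ℝ} (hδ : 0 < δ) (hδ1 : δ ≤ 1 / 32) {w : ℝ → ℝ} (hw : ∀ x, |w x| ≤ 1) {T1 : ℝ}
    (hT1 : 10 ≤ T1) (herr : ∀ T : ℝ, T1 ≤ T → ∀ σ τ : ℝ, |τ| ≤ 4 * T → 1 / 2 + 1 / Real.log T ≤ σ → σ ≤ 3 / 4 →
    1 ≤ WW δ T - σ ∧
    (2 * T ^ (1 / 2 - 47 * δ / 64)) ^ 2 * (15 * (1 + |τ| / (WW δ T - σ)) / ((WW δ T - σ) * (2 * σ - 1)) + 4 / (WW δ T - σ) +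
      (2 * NR δ T + 2 * (3 + |τ| / (WW δ T - σ))) * Real.exp (-((WW δ T - σ) / (NR δ T + 1)))) ≤ T ^ (-δ))
    (hT : T1 ≤ T) (hτ : |τ| ≤ 4 * T) (hσ : 1 / 2 + 1 / Real.log T ≤ σ) (hσ1 : σ ≤ 3 / 4) (hσ2 : σ ≤ 1 / 2 + δ / 8)
    (hr : ∀ n, |rr δ T c v n| ≤ T ^ (δ / 64)) (hr0 : rr δ T c v 0 = 0) (hrN : ∀ n, NR δ T < n → rr δ T c v n = 0)
    (hs : Summable (fun j : ℕ => ((∑ h ∈ j.divisors, gg δ T c h * qq δ T c v σ u w (j / h)) - qq δ T c v σ u w j) ^ 2 *
      (j : ℝ) ^ (-2 * σ))) {M : ℝ}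
    (hM : ∑' j : ℕ, ((∑ h ∈ j.divisors, gg δ T c h * qq δ T c v σ u w (j / h)) - qq δ T c v σ u w j) ^ 2 *
      (j : ℝ) ^ (-2 * σ) ≤ M) {R : ℝ} (hR : 0 < R) :
    ∫ s in (-R)..R, PW (WW δ T) (s - τ) * ‖riemannZeta (σ + s * Complex.I) *
      Mo (NM δ T * NR δ T) (cv (mm δ T c) (qq δ T c v σ u w)) (σ + s * Complex.I) -
        Mo (NR δ T) (qq δ T c v σ u w) (σ + s * Complex.I)‖ ^ 2 ≤ M + T ^ (-δ) := by
  have hT10 : 10 ≤ T := hT1.trans hT
  have hT0 : 0 < T := by linarith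
  have hTg1 : 1 < T := by linarith
  have hL : 0 < Real.log T := Real.log_pos hTg1
  have hσ0 : 1 / 2 < σ := lt_of_lt_of_le (by have : 0 < 1 / Real.log T := by positivity
                                             linarith) hσ
  obtain ⟨hl, he⟩ := herr T hT σ τ hτ hσ hσ1
  have hq : ∀ n, NR δ T < n → qq δ T c v σ u w n = 0 := fun n hn => by
    unfold qq
    rw [hrN n hn]
    ring
  have hq0 : qq δ T c v σ u w 0 = 0 := by
    unfold qq
    rw [hr0]
    ring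
  have h1 := zbc (NM δ T * NR δ T) (NR δ T) (cv (mm δ T c) (qq δ T c v σ u w)) (qq δ T c v σ u w) (σ := σ) (l := WW δ T - σ) (τ := τ)
    hl hσ0 hσ1 hR
  rw [sub_add_cancel] at h1
  refine h1.trans ?_
  rw [tsum_conv (by linarith) (mm_supp hδ hTg1) hq mm_zero hq0 hs]
  refine add_le_add hM (le_trans ?_ he)
  have s1 := fin_bd (u := u) hδ hδ1 hw hTg1 hσ2 hr
  have s2 := (sum_abs_cv (a := mm δ T c) (mm_supp hδ hTg1) hq).trans
    (mul_le_mul (sum_mm hδ hTg1) s1 (Finset.sum_nonneg fun _ _ => abs_nonneg _) (by positivity))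
  have s3 : T ^ (3 * δ / 16) * T ^ (1 / 2 - 59 * δ / 64) = T ^ (1 / 2 - 47 * δ / 64) := by
    rw [← Real.rpow_add hT0]
    congr 1
    ring
  have s4 : T ^ (1 / 2 - 59 * δ / 64) ≤ T ^ (1 / 2 - 47 * δ / 64) :=
    Real.rpow_le_rpow_of_exponent_le hTg1.le (by linarith)
  rw [s3] at s2
  have hl0 : 0 < WW δ T - σ := by linarith
  have h2σ : 0 < 2 * σ - 1 := by linarith
  refine mul_le_mul_of_nonneg_right ?_ ?_
  · refine pow_le_pow_left₀ (add_nonneg (Finset.sum_nonneg fun _ _ => abs_nonneg _)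
      (Finset.sum_nonneg fun _ _ => abs_nonneg _)) ?_ 2
    linarith
  · have : 0 ≤ |τ| / (WW δ T - σ) := by positivity
    positivity

/-- **M5** from R1, R2, M4. -/
theorem fm_of {δ : ℝ} (hδ : 0 < δ) (hδ1 : δ ≤ 1 / 32) (h1 : RrSupp δ) (h2 : RrBd δ) (h4 : Arith δ) :
    ∃ C c0 T0 : ℝ, 0 < C ∧ ∀ T, T0 ≤ T → ∀ c, Adm δ c0 T c → ∀ v : ℝ, v ^ 2 = (1 - 4 * δ) * c →
    ∀ τ u y : ℝ, |τ| ≤ 2 * T → |u| ≤ 2 * T → 1 ≤ y → y ≤ δ * Real.log T / 8 →
    Integrable (fun t => wt δ T c v τ t * ‖FF δ T c (pt T y (t + u)) - 1‖ ^ 2) ∧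
    ∫ t, wt δ T c v τ t * ‖FF δ T c (pt T y (t + u)) - 1‖ ^ 2 ≤ C * Real.exp (C * √c - δ * y / 16) * VV δ T c v := by
  obtain ⟨C, cA, TA, hC, hA⟩ := h4
  obtain ⟨c2, T2, h2'⟩ := h2
  obtain ⟨T1, hT1, herr'⟩ := err_bd hδ hδ1
  have herr := fun T (hT : T1 ≤ T) σ τ h1 h2 h3 => herr' T hT σ τ h1 h2 h3 (NR δ T) (Nat.floor_le (Real.rpow_nonneg (by linarith) _))
  refine ⟨8 * C + 4, max 1 (max cA c2), max (max TA T2) T1, by positivity, ?_⟩
  intro T hT c hc v hv τ u y hτ hu hy1 hy2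
  have hTA : TA ≤ T := ((le_max_left _ _).trans (le_max_left _ _)).trans hT
  have hT2 : T2 ≤ T := ((le_max_right _ _).trans (le_max_left _ _)).trans hT
  have hTT1 : T1 ≤ T := (le_max_right _ _).trans hT
  have hT10 : 10 ≤ T := hT1.trans hTT1
  have hT0 : 0 < T := by linarith
  have hTg1 : 1 < T := by linarith
  have hL : 0 < Real.log T := Real.log_pos hTg1
  have hc1 : 1 ≤ c := (le_max_left _ _).trans hc.1
  have hcA : Adm δ cA T c := ⟨((le_max_left _ _).trans (le_max_right _ _)).trans hc.1, hc.2⟩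
  have hc2 : Adm δ c2 T c := ⟨((le_max_right _ _).trans (le_max_right _ _)).trans hc.1, hc.2⟩
  set σ : ℝ := 1 / 2 + y / Real.log T with hσd
  have hσ : 1 / 2 + 1 / Real.log T ≤ σ := by
    have : 1 / Real.log T ≤ y / Real.log T := div_le_div_of_nonneg_right hy1 hL.le
    linarith
  have hσ2 : σ ≤ 1 / 2 + δ / 8 := by
    have : y / Real.log T ≤ δ / 8 := by
      rw [div_le_iff₀ hL]
      linarith
    linarith
  have hσ1 : σ ≤ 3 / 4 := by
    linarith
  have hτ' : |τ + u| ≤ 4 * T := (abs_add_le _ _).trans (by linarith)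
  have hr := fun n => (h2' T hT2 c hc2 v hv n).1
  have hVV := (h2' T hT2 c hc2 v hv 0).2
  have hrN : ∀ n, NR δ T < n → rr δ T c v n = 0 := fun n hn => by
    by_contra hcon
    have := (h1 hcon).2.1
    omega
  have hr0 : rr δ T c v 0 = 0 := by
    by_contra hcon
    have := (h1 hcon).1
    omega
  set M := C * T ^ (-(σ - 1 / 2 - 1 / Real.log T) * δ / 16) * Real.exp (C * √c) * VV δ T c v with hMd
  have pc := hA T hTA c hcA v hv σ hσ hσ1 (qq δ T c v σ u Real.cos) (qq_le Real.abs_cos_le_one)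
  have ps := hA T hTA c hcA v hv σ hσ hσ1 (qq δ T c v σ u Real.sin) (qq_le Real.abs_sin_le_one)
  have Bc := fun R hR => part (u := u) (τ := τ + u) (R := R) hδ hδ1 Real.abs_cos_le_one hT1 herr hTT1 hτ' hσ hσ1 hσ2 hr hr0 hrN
    pc.1 pc.2 hR
  have Bs := fun R hR => part (u := u) (τ := τ + u) (R := R) hδ hδ1 Real.abs_sin_le_one hT1 herr hTT1 hτ' hσ hσ1 hσ2 hr hr0 hrN
    ps.1 ps.2 hR
  have hW : 0 < WW δ T := by
    unfold WW
    positivity
  set Φ : ℝ → ℝ := fun s => PW (WW δ T) (s - (τ + u)) * (‖RR δ T c v (s - u)‖ ^ 2 * ‖FF δ T c (pt T y s) - 1‖ ^ 2) with hΦ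
  have cPW : Continuous (fun s : ℝ => PW (WW δ T) (s - (τ + u))) := (PW_cont hW).comp (by fun_prop)
  have cF : Continuous (fun s : ℝ => FF δ T c (pt T y s)) := FF_cont (δ := δ) (T := T) (c := c) (σ := σ) (by linarith)
  have cΦ : Continuous Φ :=
    cPW.mul ((((RR_cont δ T c v).comp (by fun_prop)).norm.pow 2).mul ((cF.sub continuous_const).norm.pow 2))
  have hΦ0 : ∀ s, 0 ≤ Φ s := fun s => mul_nonneg (PW_pos hW _).le (by positivity)
  have cG : ∀ w : ℝ → ℝ, Continuous (fun s : ℝ => PW (WW δ T) (s - (τ + u)) * ‖riemannZeta (σ + s * Complex.I) *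
      Mo (NM δ T * NR δ T) (cv (mm δ T c) (qq δ T c v σ u w)) (σ + s * Complex.I) -
        Mo (NR δ T) (qq δ T c v σ u w) (σ + s * Complex.I)‖ ^ 2) := fun w =>
    cPW.mul ((((ze_cont (σ := σ) (by linarith)).mul ((Mo_cont _ _).comp (by fun_prop))).sub
      ((Mo_cont _ _).comp (by fun_prop))).norm.pow 2)
  set G1 : ℝ → ℝ := fun s => PW (WW δ T) (s - (τ + u)) * ‖riemannZeta (σ + s * Complex.I) *
      Mo (NM δ T * NR δ T) (cv (mm δ T c) (qq δ T c v σ u Real.cos)) (σ + s * Complex.I) -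
        Mo (NR δ T) (qq δ T c v σ u Real.cos) (σ + s * Complex.I)‖ ^ 2 with hG1
  set G2 : ℝ → ℝ := fun s => PW (WW δ T) (s - (τ + u)) * ‖riemannZeta (σ + s * Complex.I) *
      Mo (NM δ T * NR δ T) (cv (mm δ T c) (qq δ T c v σ u Real.sin)) (σ + s * Complex.I) -
        Mo (NR δ T) (qq δ T c v σ u Real.sin) (σ + s * Complex.I)‖ ^ 2 with hG2
  have cG1 : Continuous G1 := cG _
  have cG2 : Continuous G2 := cG _
  have hint : ∀ R : ℝ, 0 < R → ∫ s in (-R)..R, Φ s ≤ 4 * (M + T ^ (-δ)) := by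
    intro R hR
    have i1 : IntervalIntegrable (fun s => 2 * G1 s) volume (-R) R := (continuous_const.mul cG1).intervalIntegrable _ _
    have i2 : IntervalIntegrable (fun s => 2 * G2 s) volume (-R) R := (continuous_const.mul cG2).intervalIntegrable _ _
    have h3 : ∫ s in (-R)..R, Φ s ≤ ∫ s in (-R)..R, (2 * G1 s + 2 * G2 s) := by
      refine intervalIntegral.integral_mono_on (by linarith) (cΦ.intervalIntegrable _ _) (i1.add i2) fun s _ => ?_
      have h4 := mul_le_mul_of_nonneg_left (point (c := c) (v := v) (σ := σ) (u := u) hδ hTg1 hrN s)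
        (PW_pos hW (s - (τ + u))).le
      simp only [hΦ, hG1, hG2, pt_eq]
      refine h4.trans (le_of_eq ?_)
      ring
    rw [intervalIntegral.integral_add i1 i2, intervalIntegral.integral_const_mul,
      intervalIntegral.integral_const_mul] at h3
    have h5 : ∫ s in (-R)..R, G1 s ≤ M + T ^ (-δ) := Bc R hR
    have h6 : ∫ s in (-R)..R, G2 s ≤ M + T ^ (-δ) := Bs R hR
    linarith
  have hab : Tendsto (fun n : ℕ => -((n : ℝ) + 1)) atTop atBot :=
    tendsto_neg_atTop_atBot.comp (tendsto_atTop_add_const_right _ _ tendsto_natCast_atTop_atTop)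
  have hbb : Tendsto (fun n : ℕ => (n : ℝ) + 1) atTop atTop :=
    tendsto_atTop_add_const_right _ _ tendsto_natCast_atTop_atTop
  have hI : Integrable Φ := by
    refine integrable_of_intervalIntegral_norm_bounded (4 * (M + T ^ (-δ)))
      (fun n : ℕ => (cΦ.integrableOn_Icc (a := -((n : ℝ) + 1)) (b := (n : ℝ) + 1)).mono_set Ioc_subset_Icc_self) hab hbb
      (Eventually.of_forall fun n => ?_)
    have e : ∀ s, ‖Φ s‖ = Φ s := fun s => Real.norm_of_nonneg (hΦ0 s)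
    simp only [e]
    exact hint _ (by positivity)
  have hle : ∫ s, Φ s ≤ 4 * (M + T ^ (-δ)) := by
    have := intervalIntegral_tendsto_integral hI hab hbb
    exact le_of_tendsto this (Eventually.of_forall fun n => hint _ (by positivity))
  have e : (fun t => wt δ T c v τ t * ‖FF δ T c (pt T y (t + u)) - 1‖ ^ 2) = fun t => Φ (t + u) := by
    funext t
    simp only [hΦ]
    unfold wt
    rw [show t + u - (τ + u) = t - τ by ring, show t + u - u = t by ring]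
    ring
  rw [e]
  refine ⟨hI.comp_add_right u, ?_⟩
  rw [integral_add_right_eq_self]
  refine hle.trans ?_
  -- numerical conclusion
  have hexp : T ^ (-(σ - 1 / 2 - 1 / Real.log T) * δ / 16) ≤ 2 * Real.exp (-(δ * y / 16)) := by
    have e1 : T ^ (-(σ - 1 / 2 - 1 / Real.log T) * δ / 16) = Real.exp (δ / 16) * Real.exp (-(δ * y / 16)) := by
      rw [Real.rpow_def_of_pos hT0, ← Real.exp_add, hσd]
      congr 1
      field_simp
      ring
    rw [e1]
    refine mul_le_mul_of_nonneg_right ?_ (Real.exp_pos _).le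
    have := Real.exp_one_lt_d9
    calc Real.exp (δ / 16) ≤ Real.exp (1 / 16) := by
          apply Real.exp_le_exp.2
          linarith
      _ ≤ 2 := by
          have h5 : Real.exp (1 / 16) ^ 16 = Real.exp 1 := by
            rw [← Real.exp_nat_mul]
            norm_num
          by_contra hcon
          have h6 : (2:ℝ) ^ 16 < Real.exp (1 / 16) ^ 16 := pow_lt_pow_left₀ (not_le.1 hcon) (by norm_num) (by norm_num)
          rw [h5] at h6
          norm_num at h6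
          linarith
      _ = 2 := rfl
  have h64 : T ^ (-δ) ≤ Real.exp (-(δ * y / 16)) := by
    rw [Real.rpow_def_of_pos hT0]
    apply Real.exp_le_exp.2
    have h6 : y ≤ Real.log T := by
      have h8 : δ * Real.log T ≤ 1 * Real.log T := mul_le_mul_of_nonneg_right (by linarith) hL.le
      linarith
    have h7 : δ * y ≤ δ * Real.log T := mul_le_mul_of_nonneg_left h6 hδ.le
    have h8 : 0 ≤ δ * y := by positivity
    linarith
  have hVV0 : 0 ≤ VV δ T c v := by linarith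
  have hE := (Real.exp_pos (-(δ * y / 16))).le
  have hEc : 1 ≤ Real.exp (C * √c) := Real.one_le_exp (by positivity)
  have hEc2 : Real.exp (C * √c) ≤ Real.exp ((8 * C + 4) * √c) := by
    apply Real.exp_le_exp.2
    refine mul_le_mul_of_nonneg_right ?_ (Real.sqrt_nonneg _)
    linarith
  have hsplit : Real.exp ((8 * C + 4) * √c - δ * y / 16) = Real.exp ((8 * C + 4) * √c) * Real.exp (-(δ * y / 16)) := by
    rw [← Real.exp_add]
    congr 1
  have hM1 : M ≤ 2 * C * (Real.exp (C * √c) * Real.exp (-(δ * y / 16)) * VV δ T c v) := by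
    calc M = C * (T ^ (-(σ - 1 / 2 - 1 / Real.log T) * δ / 16)) * (Real.exp (C * √c) * VV δ T c v) := by
          rw [hMd]; ring
      _ ≤ C * (2 * Real.exp (-(δ * y / 16))) * (Real.exp (C * √c) * VV δ T c v) := by
          refine mul_le_mul_of_nonneg_right (mul_le_mul_of_nonneg_left hexp hC.le) (by positivity)
      _ = _ := by ring
  have hT64 : T ^ (-δ) ≤ Real.exp (C * √c) * Real.exp (-(δ * y / 16)) * VV δ T c v := by
    calc T ^ (-δ) ≤ 1 * Real.exp (-(δ * y / 16)) * 1 := by linarith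
      _ ≤ _ := by
          refine mul_le_mul (mul_le_mul_of_nonneg_right hEc hE) hVV zero_le_one (by positivity)
  calc 4 * (M + T ^ (-δ)) ≤ 4 * (2 * C * (Real.exp (C * √c) * Real.exp (-(δ * y / 16)) * VV δ T c v) +
        Real.exp (C * √c) * Real.exp (-(δ * y / 16)) * VV δ T c v) := by linarith
    _ = (8 * C + 4) * (Real.exp (C * √c) * Real.exp (-(δ * y / 16))) * VV δ T c v := by ring
    _ ≤ (8 * C + 4) * (Real.exp ((8 * C + 4) * √c) * Real.exp (-(δ * y / 16))) * VV δ T c v := by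
        refine mul_le_mul_of_nonneg_right (mul_le_mul_of_nonneg_left ?_ (by positivity)) hVV0
        exact mul_le_mul_of_nonneg_right hEc2 hE
    _ = _ := by rw [hsplit]

end Pool.Agent.Helper82.UV
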