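import Pool.Agent.Helper82.UG.Few

/-!
# UV: few zeros in a window, general form

`X` the scale of the kernel, `b` the mean of `NX X`, `h` half the length of the window, `c = (X h / π) b` the mean number
of zeros in it.
-/

set_option autoImplicit false
open MeasureTheory Set Filter Topology
open Pool.Agent.Helper57.Zeta Pool.Agent.Helper57.LH Pool.Agent.Helper57.ED Pool.Agent.Helper54.LG
open Pool.Agent.Helper93.UG (zc)

namespace Pool.Agent.Helper82.UV

/-- the mean of the averaged count, general factor. -/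
lemma mean_avg {w N S : ℝ → ℝ} {b h K B a : ℝ} (ha : 0 ≤ a) (hw : Continuous w) (hwi : Integrable w) (hw0 : ∀ t, 0 ≤ w t)
    (hN : Measurable N) (hS : Continuous S) (hSB : ∀ t, |S t| ≤ B) (hh : 0 < h)
    (hD : ∀ u, |u| ≤ h → Integrable (fun t => w t * |N (t + u) - b + S (t + u)|) ∧
      ∫ t, w t * |N (t + u) - b + S (t + u)| ≤ K) :
    Integrable (fun t => w t * (a * ∫ u in (-h)..h, N (t + u))) ∧
    |(∫ t, w t * (a * ∫ u in (-h)..h, N (t + u))) -
      (2 * h * a * b * (∫ t, w t) - ∫ t, w t * (a * ∫ u in (-h)..h, S (t + u)))| ≤ 2 * h * a * K := by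
  obtain ⟨h1, h2⟩ := UG.mean_avg hw hwi hw0 hN hS hSB hh hD
  have e : ∀ F : ℝ → ℝ, (fun t => w t * (a * F t)) = fun t => 2 * h * a * (w t * (1 / (2 * h) * F t)) := by
    intro F
    funext t
    field_simp
  rw [e, e]
  refine ⟨h1.const_mul _, ?_⟩
  rw [integral_const_mul, integral_const_mul]
  have e2 : 2 * h * a * (∫ t, w t * (1 / (2 * h) * ∫ u in (-h)..h, N (t + u))) -
      (2 * h * a * b * (∫ t, w t) - 2 * h * a * ∫ t, w t * (1 / (2 * h) * ∫ u in (-h)..h, S (t + u))) =
      2 * h * a * ((∫ t, w t * (1 / (2 * h) * ∫ u in (-h)..h, N (t + u))) -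
        (b * (∫ t, w t) - ∫ t, w t * (1 / (2 * h) * ∫ u in (-h)..h, S (t + u)))) := by ring
  rw [e2, abs_mul, abs_of_nonneg (by positivity)]
  exact mul_le_mul_of_nonneg_left h2 (by positivity)

/-- Tonelli. -/
lemma tonelli {w z k A : ℝ → ℝ} (hw : Continuous w) (hw0 : ∀ t, 0 ≤ w t) (hz : Measurable z) (hz0 : ∀ t, 0 ≤ z t)
    (hk : Continuous k) (hk0 : ∀ s, 0 ≤ k s)
    (hwin : ∀ t, Integrable (fun s => k s * z (t + s)) ∧ ∫ s, k s * z (t + s) = A t)
    (hi : Integrable (fun t => w t * A t)) :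
    ∫⁻ s, ENNReal.ofReal (k s) * ∫⁻ t, ENNReal.ofReal (w t * z (t + s)) = ENNReal.ofReal (∫ t, w t * A t) := by
  have hnn : ∀ t, 0 ≤ A t := by
    intro t
    rw [← (hwin t).2]
    exact integral_nonneg fun s => mul_nonneg (hk0 s) (hz0 _)
  rw [ofReal_integral_eq_lintegral_ofReal hi (Eventually.of_forall fun t => mul_nonneg (hw0 t) (hnn t))]
  have hzm : Measurable fun p : ℝ × ℝ => z (p.2 + p.1) := hz.comp (by fun_prop)
  have hwm : Measurable fun p : ℝ × ℝ => w p.2 := hw.measurable.comp measurable_snd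
  have hkm : Measurable fun p : ℝ × ℝ => k p.1 := hk.measurable.comp measurable_fst
  calc ∫⁻ s, ENNReal.ofReal (k s) * ∫⁻ t, ENNReal.ofReal (w t * z (t + s))
      = ∫⁻ s, ∫⁻ t, ENNReal.ofReal (k s) * ENNReal.ofReal (w t * z (t + s)) := by
        refine lintegral_congr fun s => ?_
        rw [lintegral_const_mul]
        exact ((hw.measurable.mul (hz.comp (by fun_prop))).ennreal_ofReal)
    _ = ∫⁻ t, ∫⁻ s, ENNReal.ofReal (k s) * ENNReal.ofReal (w t * z (t + s)) := by
        apply lintegral_lintegral_swap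
        apply Measurable.aemeasurable
        exact hkm.ennreal_ofReal.mul (hwm.mul hzm).ennreal_ofReal
    _ = ∫⁻ t, ENNReal.ofReal (w t * A t) := by
        refine lintegral_congr fun t => ?_
        rw [ENNReal.ofReal_mul (hw0 t), ← (hwin t).2, ofReal_integral_eq_lintegral_ofReal (hwin t).1
          (Eventually.of_forall fun s => mul_nonneg (hk0 s) (hz0 _)), ← lintegral_const_mul]
        · refine lintegral_congr fun s => ?_
          rw [ENNReal.ofReal_mul (hw0 t), ENNReal.ofReal_mul (hk0 s)]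
          ring
        · exact (hk.measurable.mul (hz.comp (by fun_prop))).ennreal_ofReal

theorem few_core {w : ℝ → ℝ} {X h T c b θ θ' Cs K V : ℝ} (hX : 16 ≤ X) (hh : 0 < h) (hb : 0 < b)
    (hcb : X * h / Real.pi * b = c) (hhT : h + 8 / X ≤ √T / 2) (hT : 16 ≤ T) (hc1 : 1 ≤ c) (hcT : 16 * c ≤ Real.log T)
    (hwc : Continuous w) (hwi : Integrable w) (hw0 : ∀ t, 0 ≤ w t) (hV : 1 ≤ V) (hm : |(∫ t, w t) - V| ≤ V / T)
    (hCs : 0 ≤ Cs) (hK : 0 ≤ K)
    (hD1 : ∀ u, |u| ≤ √T → Integrable (fun t => w t * |Helper69.UG.NX X (t + u) - b + SS X (t + u)|) ∧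
      ∫ t, w t * |Helper69.UG.NX X (t + u) - b + SS X (t + u)| ≤ K * V)
    (hD2 : ∀ u, |u| ≤ √T → Integrable (fun t => w t * |Helper69.UG.NX (X / 2) (t + u) - 2 * b + SS (X / 2) (t + u)|) ∧
      ∫ t, w t * |Helper69.UG.NX (X / 2) (t + u) - 2 * b + SS (X / 2) (t + u)| ≤ K * V)
    (hs1 : ∀ u, ∫ t, w t * SS X (t + u) ^ 2 ≤ Cs * b * V) (hs2 : ∀ u, ∫ t, w t * SS (X / 2) (t + u) ^ 2 ≤ Cs * b * V)
    (hSb : θ * √c * V ≤ ∫ t, w t * (X / (2 * Real.pi) * ∫ u in (-h)..h, SS X (t + u)))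
    (hwin : ∀ t : ℝ, Integrable (fun s => X / (2 * Real.pi) * qk 0 (X * s) * (zc (Ico (t + s - h) (t + s + h)) : ℝ)) ∧
      ∫ s, X / (2 * Real.pi) * qk 0 (X * s) * (zc (Ico (t + s - h) (t + s + h)) : ℝ) =
        X / (2 * Real.pi) * ∫ w in (-h)..h, Helper69.UG.NX X (t + w))
    (hzm : Measurable (fun t => (zc (Ico (t - h) (t + h)) : ℝ))) (hqk : UG.QkMass)
    (hθ : |θ| < √c) (hθ' : |θ'| < √c) (hM : 8 + 4 * (X * h / Real.pi) * (146 * Cs + 12 * K) ≤ (θ - θ') * √c) :
    ∃ s : ℝ, |s| ≤ √T ∧ V / c ≤ ∫ t in {t : ℝ | t + s ∈ {t : ℝ | (zc (Ico (t - h) (t + h)) : ℝ) ≤ c - θ' * √c ∧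
          ∃ ρ : ZS, t - h - 16 / X ≤ (ρ : ℂ).im ∧ (ρ : ℂ).im < t - h}}, w t := by
  have hc0 : 0 < c := by linarith
  have hsc1 : 1 ≤ √c := Real.one_le_sqrt.mpr hc1
  have hscs : √c ^ 2 = c := Real.sq_sqrt hc0.le
  have hT0 : 0 < T := by linarith
  have hpi := Real.pi_pos
  have hX0 : 0 < X := by linarith
  have hsT : 4 ≤ √T := Real.le_sqrt_of_sq_le (by linarith)
  have hlogT : Real.log T ≤ 2 * √T := by
    have h1 := Real.log_le_sub_one_of_pos (show 0 < √T by linarith)
    rw [Real.log_sqrt hT0.le] at h1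
    linarith
  have hcT' : c ≤ T := by
    have h1 := Real.log_le_sub_one_of_pos hT0
    linarith
  have hV0 : 0 < V := by linarith
  set m := ∫ t, w t with hmdef
  obtain ⟨hm1, hm2⟩ := abs_le.mp hm
  have hcVT : c * (V / T) ≤ V := by
    rw [mul_div_assoc', div_le_iff₀ hT0, mul_comm]
    exact mul_le_mul_of_nonneg_left hcT' hV0.le
  set q := X * h / Real.pi with hq
  have hq0 : 0 < q := by positivity
  have hqa : 2 * h * (X / (2 * Real.pi)) = q := by rw [hq]; field_simp
  set Sb := ∫ t, w t * (X / (2 * Real.pi) * ∫ u in (-h)..h, SS X (t + u)) with hSbd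
  obtain ⟨BS, hBS⟩ := UG.SS_bdd X
  have h8X : 0 < 8 / X := by positivity
  obtain ⟨hJi, hJ⟩ := mean_avg (a := X / (2 * Real.pi)) (by positivity) hwc hwi hw0 (UG.NX_meas X) (UG.SS_cont X) hBS hh
    (fun u hu => hD1 u (hu.trans (by linarith)))
  set J := ∫ t, w t * (X / (2 * Real.pi) * ∫ u in (-h)..h, Helper69.UG.NX X (t + u)) with hJdef
  rw [← hSbd, ← hmdef, hqa, hcb] at hJ
  have hJ1 : J ≤ (c + 1 - θ * √c + q * K) * V := by
    have h1 := (abs_le.mp hJ).2
    have h2 : c * m ≤ c * (V + V / T) := mul_le_mul_of_nonneg_left (by linarith) hc0.le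
    have h3 : c * (V + V / T) ≤ c * V + V := by
      have : c * (V + V / T) = c * V + c * (V / T) := by ring
      linarith
    have h4 : (c + 1 - θ * √c + q * K) * V = c * V + V - θ * √c * V + q * (K * V) := by ring
    linarith
  obtain ⟨hki, hk1, hkt⟩ := hqk hX0
  set k : ℝ → ℝ := fun s => X / (2 * Real.pi) * qk 0 (X * s) with hk
  have hkc : Continuous k := continuous_const.mul ((qk_cont 0).comp (by fun_prop))
  have hk0 : ∀ s, 0 ≤ k s := fun s => mul_nonneg (by positivity) (qk_zero_nonneg _)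
  set z : ℝ → ℝ := fun t => (zc (Ico (t - h) (t + h)) : ℝ) with hz
  have hz0 : ∀ t, 0 ≤ z t := fun t => Nat.cast_nonneg _
  have hton := tonelli (A := fun t => X / (2 * Real.pi) * ∫ u in (-h)..h, Helper69.UG.NX X (t + u)) hwc hw0 hzm hz0 hkc hk0
    (fun t => hwin t) hJi
  rw [← hJdef] at hton
  set θm := (θ + θ') / 2 with hθm
  have hA : 0 ≤ q * (146 * Cs + 12 * K) := by positivity
  have hM' : 8 + 4 * (q * (146 * Cs + 12 * K)) ≤ (θ - θ') * √c := by linarith
  have hqK : q * K ≤ q * (146 * Cs + 12 * K) := mul_le_mul_of_nonneg_left (by linarith) hq0.le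
  have hd1 : (θ - θm) * √c = (θ - θ') * √c / 2 := by rw [hθm]; ring
  have hd2 : (θm - θ') * √c = (θ - θ') * √c / 2 := by rw [hθm]; ring
  have hθa : θ < √c := (le_abs_self θ).trans_lt hθ
  have hθ'a : θ' < √c := (le_abs_self θ').trans_lt hθ'
  have hθ'b : -√c < θ' := (abs_lt.mp hθ').1
  have hθb : -√c < θ := (abs_lt.mp hθ).1
  have hcm : 0 < c - θm * √c := by
    have h1 : c - θm * √c = √c * (√c - θm) := by linear_combination -hscs
    rw [h1]
    exact mul_pos (by linarith) (by linarith)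
  have hcm2 : c - θm * √c ≤ 2 * c := by
    have h1 : 2 * c - (c - θm * √c) = √c * (√c + θm) := by linear_combination -hscs
    have h2 : 0 ≤ √c * (√c + θm) := mul_nonneg (by linarith) (by linarith)
    linarith
  set ε := 3 / (X * (√T / 2)) with hε
  have hε0 : 0 ≤ ε := by positivity
  have hX2 : 16 * (√T / 2) ≤ X * (√T / 2) := mul_le_mul_of_nonneg_right hX (by linarith)
  have hεc : ε * (2 * c) ≤ 1 := by
    rw [hε, div_mul_eq_mul_div, div_le_one (by positivity)]
    linarith
  have hε1 : ε ≤ 1 / 2 := by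
    rw [hε, div_le_div_iff₀ (by positivity) (by norm_num)]
    linarith
  have hQ0 : 0 < (c - θm * √c) * V := by positivity
  obtain ⟨s, hsB, hE⟩ := UG.exists_low (B := √T / 2) (ε := ε) (Q := (c - θm * √c) * V) hkc hk0 hki hk1
    (hkt (√T / 2) (by positivity)) hton hQ0.le (by
      have h1 : ε * (c - θm * √c) ≤ 1 := le_trans (mul_le_mul_of_nonneg_left hcm2 hε0) hεc
      have h2 : (c - θm * √c - 1) * V ≤ (c - θm * √c) * V * (1 - ε) := by
        have : (c - θm * √c) * V * (1 - ε) = (c - θm * √c - ε * (c - θm * √c)) * V := by ring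
        rw [this]
        apply mul_le_mul_of_nonneg_right _ hV0.le
        linarith
      refine lt_of_lt_of_le (lt_of_le_of_lt hJ1 ?_) h2
      apply mul_lt_mul_of_pos_right _ hV0
      linarith) (by
      apply mul_pos hQ0
      linarith)
  refine ⟨s, hsB.trans (by linarith), ?_⟩
  set y := c - θ' * √c with hy
  have hyc : y ≤ 2 * c := by
    have h1 : 2 * c - y = √c * (√c + θ') := by rw [hy]; linear_combination -hscs
    have h2 : 0 ≤ √c * (√c + θ') := mul_nonneg (by linarith) (by linarith)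
    linarith
  have hy0 : 0 ≤ y := by
    have h1 : y = √c * (√c - θ') := by rw [hy]; linear_combination -hscs
    rw [h1]
    exact mul_nonneg (by linarith) (by linarith)
  have h1 := UG.low_set (y := y) hwi hw0 hzm hy0 hQ0.le hE.le
  set S : Set ℝ := {t : ℝ | z (t + s) ≤ y} with hS
  have hSm : MeasurableSet S := measurableSet_le (hzm.comp (by fun_prop)) measurable_const
  set G : Set ℝ := {t : ℝ | ∃ ρ : ZS, t + s - h - 16 / X ≤ (ρ : ℂ).im ∧ (ρ : ℂ).im < t + s - h} with hG
  have hGm : MeasurableSet G := by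
    have e : G = ⋃ ρ : ZS, {t : ℝ | t + s - h - 16 / X ≤ (ρ : ℂ).im ∧ (ρ : ℂ).im < t + s - h} := by
      ext t
      simp only [hG, mem_ofPred_eq, mem_iUnion]
    rw [e]
    apply MeasurableSet.iUnion
    intro ρ
    have h5 : Measurable fun t : ℝ => t + s - h - 16 / X := by fun_prop
    have h6 : Measurable fun t : ℝ => t + s - h := by fun_prop
    exact (measurableSet_le h5 measurable_const).inter (measurableSet_lt measurable_const h6)
  have hgoal : ∫ t in {t : ℝ | t + s ∈ {t : ℝ | (zc (Ico (t - h) (t + h)) : ℝ) ≤ c - θ' * √c ∧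
          ∃ ρ : ZS, t - h - 16 / X ≤ (ρ : ℂ).im ∧ (ρ : ℂ).im < t - h}}, w t = ∫ t in S ∩ G, w t := rfl
  rw [hgoal]
  have hsplit := integral_inter_add_diff hGm hwi.integrableOn (s := S)
  -- the bad set
  set u := s - h - 8 / X with hu
  have huT : |u| ≤ √T := by
    rw [abs_le] at hsB ⊢
    constructor <;> rw [hu] <;> linarith
  have hd1' := hD1 u huT
  have hd2' := hD2 u huT
  have hSi : ∀ Y : ℝ, Integrable fun t => w t * SS Y (t + u) ^ 2 := by
    intro Y
    obtain ⟨B, hB⟩ := UG.SS_bdd Y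
    have hc2 : Continuous fun t => SS Y (t + u) ^ 2 := by
      have := UG.SS_cont Y
      fun_prop
    refine UG.int_bdd hwi (B := B ^ 2) hc2.measurable ?_
    · intro t
      rw [abs_pow]
      exact pow_le_pow_left₀ (abs_nonneg _) (hB _) 2
  set g : ℝ → ℝ := fun t => 128 / b * (w t * SS X (t + u) ^ 2) + 18 / b * (w t * SS (X / 2) (t + u) ^ 2) +
      8 * (w t * |Helper69.UG.NX X (t + u) - b + SS X (t + u)|) +
      3 * (w t * |Helper69.UG.NX (X / 2) (t + u) - 2 * b + SS (X / 2) (t + u)|) with hg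
  have i1 : Integrable fun t => 128 / b * (w t * SS X (t + u) ^ 2) := (hSi X).const_mul _
  have i2 : Integrable fun t => 18 / b * (w t * SS (X / 2) (t + u) ^ 2) := (hSi (X / 2)).const_mul _
  have i3 := hd1'.1.const_mul 8
  have i4 := hd2'.1.const_mul 3
  have i12 : Integrable fun t => 128 / b * (w t * SS X (t + u) ^ 2) + 18 / b * (w t * SS (X / 2) (t + u) ^ 2) := i1.add i2
  have i123 : Integrable fun t => 128 / b * (w t * SS X (t + u) ^ 2) + 18 / b * (w t * SS (X / 2) (t + u) ^ 2) +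
      8 * (w t * |Helper69.UG.NX X (t + u) - b + SS X (t + u)|) := i12.add i3
  have hgi : Integrable g := i123.add i4
  have hgI : ∫ t, g t ≤ (146 * Cs + 11 * K) * V := by
    have e : ∫ t, g t = 128 / b * (∫ t, w t * SS X (t + u) ^ 2) + 18 / b * (∫ t, w t * SS (X / 2) (t + u) ^ 2) +
        8 * (∫ t, w t * |Helper69.UG.NX X (t + u) - b + SS X (t + u)|) +
        3 * (∫ t, w t * |Helper69.UG.NX (X / 2) (t + u) - 2 * b + SS (X / 2) (t + u)|) := by
      rw [hg, integral_add i123 i4, integral_add i12 i3, integral_add i1 i2, integral_const_mul, integral_const_mul,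
        integral_const_mul, integral_const_mul]
    rw [e]
    have e1 : 128 / b * (∫ t, w t * SS X (t + u) ^ 2) ≤ 128 * Cs * V := by
      calc 128 / b * (∫ t, w t * SS X (t + u) ^ 2) ≤ 128 / b * (Cs * b * V) := mul_le_mul_of_nonneg_left (hs1 u) (by positivity)
        _ = 128 * Cs * V := by field_simp
    have e2 : 18 / b * (∫ t, w t * SS (X / 2) (t + u) ^ 2) ≤ 18 * Cs * V := by
      calc 18 / b * (∫ t, w t * SS (X / 2) (t + u) ^ 2) ≤ 18 / b * (Cs * b * V) := mul_le_mul_of_nonneg_left (hs2 u) (by positivity)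
        _ = 18 * Cs * V := by field_simp
    have e3 := hd1'.2
    have e4 := hd2'.2
    linarith
  have hbad : b * (∫ t in S \ G, w t) ≤ (146 * Cs + 11 * K) * V := by
    refine le_trans ?_ hgI
    rw [← integral_const_mul]
    refine le_trans (setIntegral_mono_on (hwi.integrableOn.const_mul _) hgi.integrableOn (hSm.diff hGm) fun t ht => ?_)
      (setIntegral_le_integral hgi (Eventually.of_forall fun t => ?_))
    · have h2 : ∀ ρ : ZS, 8 / X ≤ |(ρ : ℂ).im - (t + u)| := by
        intro ρ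
        by_contra hcon
        push Not at hcon
        rw [abs_lt] at hcon
        apply ht.2
        refine ⟨ρ, ?_, ?_⟩
        · have : (16:ℝ) / X = 8 / X + 8 / X := by ring
          rw [this]
          linarith [hcon.1]
        · linarith [hcon.2]
      have h3 := mul_le_mul_of_nonneg_right (UG.bad_pt hX0 hb h2) (hw0 t)
      refine h3.trans (le_of_eq ?_)
      rw [hg]
      ring
    · have h2 := hw0 t
      have : g t = w t * (128 / b * SS X (t + u) ^ 2 + 18 / b * SS (X / 2) (t + u) ^ 2 +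
        8 * |Helper69.UG.NX X (t + u) - b + SS X (t + u)| +
        3 * |Helper69.UG.NX (X / 2) (t + u) - 2 * b + SS (X / 2) (t + u)|) := by rw [hg]; ring
      rw [Pi.zero_apply, this]
      positivity
  have hSw0 : 0 ≤ ∫ t in S, w t := setIntegral_nonneg hSm fun t _ => hw0 t
  have h2 : ((θm - θ') * √c - 2) * V ≤ 2 * c * ∫ t in S, w t := by
    have h3 : y * (∫ t in S, w t) ≤ 2 * c * ∫ t in S, w t := mul_le_mul_of_nonneg_right hyc hSw0
    have h4 : y * (V - V / T) ≤ y * m := mul_le_mul_of_nonneg_left (by linarith) hy0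
    have h5 : y * (V / T) ≤ 2 * V := by
      have h6 : y * (V / T) ≤ 2 * c * (V / T) := mul_le_mul_of_nonneg_right hyc (by positivity)
      linarith
    have h6 : ((θm - θ') * √c - 2) * V = y * V - 2 * V - (c - θm * √c) * V := by rw [hy]; ring
    have h7 : y * (V - V / T) = y * V - y * (V / T) := by ring
    linarith
  have hbad' : c * (∫ t in S \ G, w t) ≤ q * (146 * Cs + 11 * K) * V := by
    calc c * (∫ t in S \ G, w t) = q * (b * ∫ t in S \ G, w t) := by rw [← hcb]; ring
      _ ≤ q * ((146 * Cs + 11 * K) * V) := mul_le_mul_of_nonneg_left hbad hq0.le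
      _ = _ := by ring
  rw [div_le_iff₀ hc0]
  have h4 : c * (∫ t in S, w t) = c * (∫ t in S ∩ G, w t) + c * ∫ t in S \ G, w t := by rw [← hsplit]; ring
  have h5 : (2 + 2 * (q * (146 * Cs + 12 * K))) * V ≤ ((θm - θ') * √c - 2) * V :=
    mul_le_mul_of_nonneg_right (by linarith) hV0.le
  have h6 : q * (146 * Cs + 11 * K) * V ≤ q * (146 * Cs + 12 * K) * V :=
    mul_le_mul_of_nonneg_right (mul_le_mul_of_nonneg_left (by linarith) hq0.le) hV0.le
  have h7 : (2 + 2 * (q * (146 * Cs + 12 * K))) * V = 2 * V + 2 * (q * (146 * Cs + 12 * K) * V) := by ring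
  linarith

end Pool.Agent.Helper82.UV
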